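import Pool.Agent.TH353.FS.Patterns

/-!
# Four shifts of sums of two squares: patterns B and C
-/

namespace Pool.Agent.TH353.FS

/-- **Pattern B**: `h3 ≡ h2 mod 8` and `h1 ≡ h2 - 1 mod 4`. -/
theorem patternB {h1 h2 h3 h4 β γ : ℤ} (hβ : h3 = h2 + 8 * β) (hγ : h1 = h2 + 4 * γ - 1)
    (hc : NonCov h1 h2 h3) : Big h1 h2 h3 h4 := by
  have hσ : (2 * β - 1) * (2 * β + 1) ≠ 0 :=
    mul_ne_zero (by omega) (by omega)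
  have h3' : ¬ ((3 : ℤ) ∣ (2 * β - 1) * (2 * β + 1) ∧
      (3 : ℤ) ∣ ((2 * β - 1) ^ 2 + (4 * γ - 1)) - 2) := by
    rintro ⟨a, b⟩
    obtain ⟨c, c1, c2, c3⟩ := hc
    rcases cov_aux (α := 2 * β) (δ := 4 * γ - 1) a b with h | h <;> omega
  have hC1 : ((2 * β - 1) ^ 2 + (4 * γ - 1)) + 1 ≠ 0 := by
    intro h
    have e : ((2 * β - 1) ^ 2 + (4 * γ - 1)) + 1 = 4 * (β ^ 2 - β + γ) + 1 := by ring
    omega
  obtain ⟨v, ⟨w, hw⟩, hv⟩ := choose hσ hC1 h3' 1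
  have hvw : v = 4 * w + 1 := by push_cast at hw; linarith
  subst hvw
  set x : ℤ := β ^ 2 - β + γ - 4 * w ^ 2 - 2 * w - 1 with hx
  have hP := hv 1 (2 * x + 1) (by rw [hx]; ring)
  set P2 : ℤ := 2 * (x ^ 2 + x + β ^ 2 - β) + 1 with hP2
  set P3 : ℤ := 2 * (x ^ 2 + x + β ^ 2 + β) + 1 with hP3
  have f2 : (2 * x + 1) ^ 2 + (2 * β - 1) ^ 2 = 2 * P2 := by rw [hP2]; ring
  have f3 : (2 * x + 1) ^ 2 + (2 * β + 1) ^ 2 = 2 * P3 := by rw [hP3]; ring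
  have f1 : (1 * (2 * x + 1) + 1) ^ 2 + (4 * w + 1) ^ 2
      = 2 * (2 * (x + 1) ^ 2 + 8 * w ^ 2 + 4 * w) + 1 := by ring
  have d21 : 2 * P2 - ((1 * (2 * x + 1) + 1) ^ 2 + (4 * w + 1) ^ 2) = h2 - h1 := by
    rw [hP2, hγ, hx]; ring
  have o1 : ((1 * (2 * x + 1) + 1) ^ 2 + (4 * w + 1) ^ 2) % 2 = 1 := by omega
  have o2 : P2 % 2 = 1 := by omega
  have o3 : P3 % 2 = 1 := by omega
  have q1 : 0 < (1 * (2 * x + 1) + 1) ^ 2 + (4 * w + 1) ^ 2 := by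
    have : 0 ≤ (1 * (2 * x + 1) + 1) ^ 2 + (4 * w + 1) ^ 2 := by positivity
    omega
  have q2 : 0 < P2 := by
    have : 0 ≤ (2 * x + 1) ^ 2 + (2 * β - 1) ^ 2 := by positivity
    omega
  have q3 : 0 < P3 := by
    have : 0 ≤ (2 * x + 1) ^ 2 + (2 * β + 1) ^ 2 := by positivity
    omega
  have hP' : ∀ q : ℕ, q.Prime → q % 4 = 3 →
      ¬ (q : ℤ) ∣ ((1 * (2 * x + 1) + 1) ^ 2 + (4 * w + 1) ^ 2) ∧ ¬ (q : ℤ) ∣ P2 ∧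
        ¬ (q : ℤ) ∣ P3 := by
    intro q hq h4
    obtain ⟨a1, a2, a3⟩ := hP q hq h4
    rw [f2] at a1
    rw [f3] at a2
    exact ⟨a3, fun h => a1 (h.mul_left 2), fun h => a2 (h.mul_left 2)⟩
  have s2 : P2 = (2 * (x ^ 2 + x + β ^ 2) + 1) - 2 * β := by rw [hP2]; ring
  have s3 : P3 = (2 * (x ^ 2 + x + β ^ 2) + 1) + 2 * β := by rw [hP3]; ring
  have d31 : 2 * P3 - ((1 * (2 * x + 1) + 1) ^ 2 + (4 * w + 1) ^ 2) = h3 - h1 := by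
    rw [hβ]; linarith
  clear_value P2 P3
  generalize 2 * (x ^ 2 + x + β ^ 2) + 1 = s at *
  generalize (1 * (2 * x + 1) + 1) ^ 2 + (4 * w + 1) ^ 2 = P1 at *
  refine fin o1 o2 o3 q1 q2 q3 hP' (S1 := P1 * s - P2 * P3) (S2 := P1 * (-(2 * β)) + P2 * P3)
    (S3 := P1 * (2 * β) + P2 * P3) ?_ ?_
  · rw [← d21, s2, s3]; ring
  · rw [← d31, s2, s3]; ring

/-- **Pattern C**: `h2 ≡ h1 mod 16`, `h2 - h1 ≠ ± 16`, `h3 ≡ h1 + 1 mod 4`. -/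
theorem patternC {h1 h2 h3 h4 α β : ℤ} (hα : h2 = h1 + 16 * α) (hβ : h3 = h1 + 4 * β + 1)
    (n1 : α ≠ 1) (n2 : α ≠ -1) (hc : NonCov h1 h2 h3) : Big h1 h2 h3 h4 := by
  have hσ : (α - 1) * (α + 1) ≠ 0 :=
    mul_ne_zero (sub_ne_zero.2 n1) (fun h => n2 (by linarith))
  have h3' : ¬ ((3 : ℤ) ∣ (α - 1) * (α + 1) ∧
      (3 : ℤ) ∣ (4 * (α - 1) ^ 2 + 1 + 4 * β) - 2) := by
    rintro ⟨a, b⟩
    obtain ⟨c, c1, c2, c3⟩ := hc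
    have b' : (3 : ℤ) ∣ (α - 1) ^ 2 + (1 + 4 * β) - 2 := by
      have e : (α - 1) ^ 2 + (1 + 4 * β) - 2
          = ((4 * (α - 1) ^ 2 + 1 + 4 * β) - 2) - 3 * (α - 1) ^ 2 := by ring
      rw [e]
      exact dvd_sub b (dvd_mul_right _ _)
    rcases cov_aux a b' with h | h <;> omega
  have hC1 : (4 * (α - 1) ^ 2 + 1 + 4 * β) + 1 ≠ 0 := by
    intro h
    omega
  -- the class of `v` mod 4
  obtain ⟨k, hk⟩ := odd_cases β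
  have main : ∃ v X : ℤ, (4 * (α - 1) ^ 2 + 1 + 4 * β) - 1 - v ^ 2 = 2 * 2 * X ∧ v % 2 = 0 ∧
      (X - α) % 2 = 0 ∧ ∀ q : ℕ, q.Prime → q % 4 = 3 →
        ¬ (q : ℤ) ∣ X ^ 2 + (α - 1) ^ 2 ∧ ¬ (q : ℤ) ∣ X ^ 2 + (α + 1) ^ 2 ∧
          ¬ (q : ℤ) ∣ (2 * X + 1) ^ 2 + v ^ 2 := by
    have par : ∀ z : ℤ, ∃ j : ℤ, z ^ 2 = z + 2 * j := by
      intro z
      rcases odd_cases z with ⟨m, rfl | rfl⟩
      · exact ⟨2 * m ^ 2 - m, by ring⟩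
      · exact ⟨2 * m ^ 2 + m, by ring⟩
    obtain ⟨j, hj⟩ := par (α - 1)
    rcases hk with rfl | rfl
    · obtain ⟨v, ⟨w, hw⟩, hv⟩ := choose hσ hC1 h3' 2
      have hvw : v = 4 * w + 2 := by push_cast at hw; linarith
      subst hvw
      have hX : (4 * (α - 1) ^ 2 + 1 + 4 * (2 * k)) - 1 - (4 * w + 2) ^ 2
          = 2 * 2 * ((α - 1) ^ 2 + 2 * k - 4 * w ^ 2 - 4 * w - 1) := by ring
      refine ⟨4 * w + 2, _, hX, by omega, ?_, hv 2 _ hX⟩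
      rw [hj]; omega
    · obtain ⟨v, ⟨w, hw⟩, hv⟩ := choose hσ hC1 h3' 0
      have hvw : v = 4 * w := by push_cast at hw; linarith
      subst hvw
      have hX : (4 * (α - 1) ^ 2 + 1 + 4 * (2 * k + 1)) - 1 - (4 * w) ^ 2
          = 2 * 2 * ((α - 1) ^ 2 + (2 * k + 1) - 4 * w ^ 2) := by ring
      refine ⟨4 * w, _, hX, by omega, ?_, hv 2 _ hX⟩
      rw [hj]; omega
  obtain ⟨v, X, hX, hv2, hXα, hP⟩ := main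
  obtain ⟨y, hy⟩ : ∃ y : ℤ, X = α + 2 * y := ⟨(X - α) / 2, by omega⟩
  obtain ⟨u, hu⟩ : ∃ u : ℤ, v = 2 * u := ⟨v / 2, by omega⟩
  have o1 : (X ^ 2 + (α - 1) ^ 2) % 2 = 1 := by
    have e : X ^ 2 + (α - 1) ^ 2 = 2 * (α ^ 2 + 2 * α * y + 2 * y ^ 2 - α) + 1 := by
      rw [hy]; ring
    omega
  have o2 : (X ^ 2 + (α + 1) ^ 2) % 2 = 1 := by
    have e : X ^ 2 + (α + 1) ^ 2 = 2 * (α ^ 2 + 2 * α * y + 2 * y ^ 2 + α) + 1 := by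
      rw [hy]; ring
    omega
  have o3 : ((2 * X + 1) ^ 2 + v ^ 2) % 2 = 1 := by
    have e : (2 * X + 1) ^ 2 + v ^ 2 = 2 * (2 * X ^ 2 + 2 * X + 2 * u ^ 2) + 1 := by
      rw [hu]; ring
    omega
  have q1 : 0 < X ^ 2 + (α - 1) ^ 2 := by
    have : 0 ≤ X ^ 2 + (α - 1) ^ 2 := by positivity
    omega
  have q2 : 0 < X ^ 2 + (α + 1) ^ 2 := by
    have : 0 ≤ X ^ 2 + (α + 1) ^ 2 := by positivity
    omega
  have q3 : 0 < (2 * X + 1) ^ 2 + v ^ 2 := by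
    have : 0 ≤ (2 * X + 1) ^ 2 + v ^ 2 := by positivity
    omega
  have d2 : h2 - h1 = 16 * α := by rw [hα]; ring
  have d3 : h3 - h1 = ((2 * X + 1) ^ 2 + v ^ 2) - 4 * (X ^ 2 + (α - 1) ^ 2) := by
    rw [hβ]; linear_combination hX
  have s1 : X ^ 2 + (α - 1) ^ 2 = (X ^ 2 + α ^ 2 + 1) - 2 * α := by ring
  have s2 : X ^ 2 + (α + 1) ^ 2 = (X ^ 2 + α ^ 2 + 1) + 2 * α := by ring
  refine fin o1 o2 o3 q1 q2 q3 hP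
    (S1 := 2 * ((X ^ 2 + (α - 1) ^ 2) * (X ^ 2 + (α + 1) ^ 2))
      - ((2 * X + 1) ^ 2 + v ^ 2) * (2 * α))
    (S2 := 2 * ((X ^ 2 + (α - 1) ^ 2) * (X ^ 2 + (α + 1) ^ 2))
      + ((2 * X + 1) ^ 2 + v ^ 2) * (2 * α))
    (S3 := ((2 * X + 1) ^ 2 + v ^ 2) * (X ^ 2 + α ^ 2 + 1)
      - 2 * ((X ^ 2 + (α - 1) ^ 2) * (X ^ 2 + (α + 1) ^ 2))) ?_ ?_
  · rw [d2]; ring
  · rw [d3, s1, s2]
    generalize (2 * X + 1) ^ 2 + v ^ 2 = P3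
    generalize X ^ 2 + α ^ 2 + 1 = s
    ring

end Pool.Agent.TH353.FS
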