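import Pool.Agent.TH353.FS.Core

/-!
# Four shifts of sums of two squares: choice of the three numbers `M i` without primes `3 mod 4`
-/

namespace Pool.Agent.TH353.FS

/-- Chinese remainder theorem: one number with a prescribed class mod `4` and prescribed classes
modulo all primes `3 mod 4` dividing `K`. -/
theorem crt {K : ℕ} (hK : K ≠ 0) (f : ℕ → ℕ) (r : ℕ) :
    ∃ v : ℤ, (4 : ℤ) ∣ v - r ∧ ∀ q : ℕ, q.Prime → q ∣ K → q % 4 = 3 → (q : ℤ) ∣ v - f q := by
  classical
  set t : Finset ℕ := insert 2 (K.primeFactors.filter (fun q => q % 4 = 3)) with ht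
  set s : ℕ → ℕ := fun i => if i = 2 then 4 else i with hs
  set a : ℕ → ℕ := fun i => if i = 2 then r else f i with ha
  have hs0 : ∀ i ∈ t, s i ≠ 0 := by
    intro i hi
    simp only [hs]
    split_ifs with h
    · norm_num
    · rw [ht, Finset.mem_insert, Finset.mem_filter] at hi
      rcases hi with h' | ⟨h', _⟩
      · exact absurd h' h
      · exact (Nat.prime_of_mem_primeFactors h').ne_zero
  have hpp : Set.Pairwise (t : Set ℕ) (Function.onFun Nat.Coprime s) := by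
    have key : ∀ i ∈ t, i = 2 ∨ (i.Prime ∧ i % 4 = 3) := by
      intro i hi
      rw [ht, Finset.mem_insert, Finset.mem_filter] at hi
      rcases hi with h | ⟨h, h'⟩
      · exact Or.inl h
      · exact Or.inr ⟨Nat.prime_of_mem_primeFactors h, h'⟩
    have four : ∀ i : ℕ, i.Prime → i % 4 = 3 → Nat.Coprime 4 i := by
      intro i hi h4
      rw [Nat.coprime_comm, Nat.Prime.coprime_iff_not_dvd hi]
      intro h
      have := Nat.le_of_dvd (by norm_num) h
      interval_cases i <;> omega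
    intro i hi j hj hij
    show Nat.Coprime (s i) (s j)
    rcases key i hi with h | ⟨h, h'⟩ <;> rcases key j hj with g | ⟨g, g'⟩
    · exact absurd (h.trans g.symm) hij
    · have e1 : s i = 4 := by simp [hs, h]
      have e2 : s j = j := by
        simp only [hs]; rw [if_neg]; rintro rfl; omega
      rw [e1, e2]; exact four j g g'
    · have e1 : s j = 4 := by simp [hs, g]
      have e2 : s i = i := by
        simp only [hs]; rw [if_neg]; rintro rfl; omega
      rw [e1, e2]; exact (four i h h').symm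
    · have e1 : s j = j := by
        simp only [hs]; rw [if_neg]; rintro rfl; omega
      have e2 : s i = i := by
        simp only [hs]; rw [if_neg]; rintro rfl; omega
      rw [e1, e2]
      exact (Nat.coprime_primes h g).2 hij
  obtain ⟨k, hk⟩ := Nat.chineseRemainderOfFinset a s t hs0 hpp
  refine ⟨k, ?_, ?_⟩
  · have h := hk 2 (by rw [ht]; exact Finset.mem_insert_self _ _)
    simp only [ha, hs, if_true] at h
    have := (Nat.modEq_iff_dvd.1 h.symm)
    exact_mod_cast this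
  · intro q hq hqK h4
    have hmem : q ∈ t := by
      rw [ht, Finset.mem_insert, Finset.mem_filter]
      exact Or.inr ⟨Nat.mem_primeFactors.2 ⟨hq, hqK, hK⟩, h4⟩
    have h := hk q hmem
    have hq2 : q ≠ 2 := by rintro rfl; omega
    simp only [ha, hs, if_neg hq2] at h
    have := (Nat.modEq_iff_dvd.1 h.symm)
    exact_mod_cast this

/-- The residue class used modulo the prime `q`. -/
noncomputable def res (C : ℤ) (q : ℕ) : ℕ := by
  classical
  exact if (q : ℤ) ∣ C - 2 ∧ q ≠ 3 then 2 else 1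

theorem res_spec {C σ : ℤ} {q : ℕ} (hq : q.Prime) (h4 : q % 4 = 3)
    (h3 : ¬ ((3 : ℤ) ∣ σ ∧ (3 : ℤ) ∣ C - 2)) :
    ((q : ℤ) ∣ σ → ¬ (q : ℤ) ∣ C - 1 - (res C q : ℤ) ^ 2) ∧ ¬ (q : ℤ) ∣ (res C q : ℤ) := by
  classical
  unfold res
  have hq3 : 3 ≤ q := by omega
  have hpi : Prime (q : ℤ) := Nat.prime_iff_prime_int.1 hq
  split_ifs with h
  · obtain ⟨h, hne⟩ := h
    have hq7 : 7 ≤ q := by
      by_contra hc
      push_neg at hc
      interval_cases q <;> simp_all
    constructor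
    · intro _ hd
      have := dvd_sub h hd
      have e : C - 2 - (C - 1 - ((2 : ℕ) : ℤ) ^ 2) = 3 := by push_cast; ring
      rw [e] at this
      have := Int.le_of_dvd (by norm_num) this
      omega
    · intro hd
      have := Int.le_of_dvd (by norm_num) hd
      push_cast at this
      omega
  · constructor
    · intro hσ hd
      have e : C - 1 - ((1 : ℕ) : ℤ) ^ 2 = C - 2 := by push_cast; ring
      rw [e] at hd
      apply h
      refine ⟨hd, ?_⟩
      rintro rfl
      exact h3 ⟨by exact_mod_cast hσ, by exact_mod_cast hd⟩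
    · intro hd
      have := Int.le_of_dvd (by norm_num) hd
      push_cast at this
      omega

/-- **Choice of `v`.**  There is `v` in a given class mod `4` such that, whenever
`C - 1 - v ^ 2 = 2 ρ X`, no prime `3 mod 4` divides `X ^ 2 + σ₁ ^ 2`, `X ^ 2 + σ₂ ^ 2` or
`(ρ X + 1) ^ 2 + v ^ 2`. -/
theorem choose {C σ1 σ2 : ℤ} (hσ : σ1 * σ2 ≠ 0) (hC : C + 1 ≠ 0)
    (h3 : ¬ ((3 : ℤ) ∣ σ1 * σ2 ∧ (3 : ℤ) ∣ C - 2)) (r : ℕ) :
    ∃ v : ℤ, (4 : ℤ) ∣ v - r ∧ ∀ ρ X : ℤ, C - 1 - v ^ 2 = 2 * ρ * X →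
      ∀ q : ℕ, q.Prime → q % 4 = 3 →
        ¬ (q : ℤ) ∣ X ^ 2 + σ1 ^ 2 ∧ ¬ (q : ℤ) ∣ X ^ 2 + σ2 ^ 2 ∧
          ¬ (q : ℤ) ∣ (ρ * X + 1) ^ 2 + v ^ 2 := by
  have hK : (σ1 * σ2 * (C + 1)).natAbs ≠ 0 := by
    rw [Int.natAbs_ne_zero]; exact mul_ne_zero hσ hC
  obtain ⟨v, hv4, hv⟩ := crt hK (res C) r
  refine ⟨v, hv4, ?_⟩
  intro ρ X hX q hq h4
  have hspec := res_spec (C := C) (σ := σ1 * σ2) hq h4 h3
  have key : ∀ σ : ℤ, σ ∣ σ1 * σ2 → ¬ (q : ℤ) ∣ X ^ 2 + σ ^ 2 := by
    intro σ hσd hd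
    obtain ⟨hX', hσ'⟩ := dvd_of_dvd_sq hq h4 hd
    have hσ12 : (q : ℤ) ∣ σ1 * σ2 := hσ'.trans hσd
    have hqK : q ∣ (σ1 * σ2 * (C + 1)).natAbs :=
      Int.natCast_dvd.1 (hσ12.mul_right _)
    have hvq := hv q hq hqK h4
    apply hspec.1 hσ12
    have e : C - 1 - (res C q : ℤ) ^ 2
        = (C - 1 - v ^ 2) + (v - res C q) * (v + res C q) := by ring
    rw [e, hX]
    exact dvd_add (hX'.mul_left _) (hvq.mul_right _)
  refine ⟨key σ1 (dvd_mul_right _ _), key σ2 (dvd_mul_left _ _), ?_⟩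
  intro hd
  obtain ⟨hX', hv'⟩ := dvd_of_dvd_sq hq h4 hd
  have hC1 : (q : ℤ) ∣ C + 1 := by
    have e : C + 1 = 2 * (ρ * X + 1) + v * v := by linear_combination hX
    rw [e]
    exact dvd_add (hX'.mul_left _) (hv'.mul_right _)
  have hqK : q ∣ (σ1 * σ2 * (C + 1)).natAbs := Int.natCast_dvd.1 (hC1.mul_left _)
  have hvq := hv q hq hqK h4
  apply hspec.2
  have e : (res C q : ℤ) = v - (v - res C q) := by ring
  rw [e]
  exact dvd_sub hv' hvq

end Pool.Agent.TH353.FS
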