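import Mathlib

/-!
# Four shifts of sums of two squares: the core step

If `M 1, M 2, M 3` are three shifts `n₀ + h i` all of whose odd prime factors are `1 mod 4`, then
`N = 4 M₁ M₂ M₃` and `s i = M i (M j + M k) - M j M k` satisfy `s i ^ 2 - s j ^ 2 = N (h i - h j)`.
-/

namespace Pool.Agent.TH353.FS

/-- The set of sums of two integer squares. -/
def Sq2 : Set ℤ := {z | ∃ a b : ℤ, z = a ^ 2 + b ^ 2}

/-- all prime factors are `1 mod 4`. -/
def Pr (N : ℕ) : Prop := ∀ q : ℕ, q.Prime → q ∣ N → q % 4 = 1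

/-- a prime `3 mod 4` that divides a sum of two squares divides both. -/
theorem dvd_of_dvd_sq {q : ℕ} (hq : q.Prime) (h4 : q % 4 = 3) {x y : ℤ}
    (h : (q : ℤ) ∣ x ^ 2 + y ^ 2) : (q : ℤ) ∣ x ∧ (q : ℤ) ∣ y := by
  have : Fact q.Prime := ⟨hq⟩
  have e : ((x : ZMod q)) ^ 2 + ((y : ZMod q)) ^ 2 = 0 := by
    have := (ZMod.intCast_zmod_eq_zero_iff_dvd (x ^ 2 + y ^ 2) q).2 h
    push_cast at this
    exact this
  have hy : (y : ZMod q) = 0 := by
    by_contra hy
    exact ZMod.mod_four_ne_three_of_sq_eq_neg_sq' (p := q) (x := (x : ZMod q)) hy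
      (by linear_combination e) h4
  have hx : (x : ZMod q) = 0 := by
    rw [hy] at e
    have : (x : ZMod q) ^ 2 = 0 := by linear_combination e
    exact pow_eq_zero_iff (two_ne_zero) |>.1 this
  exact ⟨(ZMod.intCast_zmod_eq_zero_iff_dvd x q).1 hx, (ZMod.intCast_zmod_eq_zero_iff_dvd y q).1 hy⟩

/-- `-1` is a square modulo every number all of whose prime factors are `1 mod 4`. -/
theorem exists_iota (N : ℕ) : N ≠ 0 → Pr N → ∃ t : ℤ, (N : ℤ) ∣ t ^ 2 + 1 := by
  induction N using induction_on_primes with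
  | zero => intro h; exact absurd rfl h
  | one => intro _ _; exact ⟨0, by simp⟩
  | prime_mul p a hp ih =>
    intro h0 hPr
    have ha0 : a ≠ 0 := fun h => h0 (by rw [h, mul_zero])
    obtain ⟨t, k, hk⟩ := ih ha0 (fun q hq hd => hPr q hq (hd.mul_left p))
    have hp4 : p % 4 = 1 := hPr p hp (dvd_mul_right p a)
    have : Fact p.Prime := ⟨hp⟩
    have hpi : Prime (p : ℤ) := Nat.prime_iff_prime_int.1 hp
    by_cases hpa : (p : ℤ) ∣ (a : ℤ)
    · have h2 : ¬ (p : ℤ) ∣ 2 * t := by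
        intro h
        rcases hpi.dvd_or_dvd h with h | h
        · have : p ∣ 2 := by exact_mod_cast h
          have := Nat.le_of_dvd (by norm_num) this
          have := hp.two_le
          omega
        · have h1 : (p : ℤ) ∣ t ^ 2 + 1 := hpa.trans ⟨k, hk⟩
          have h3 : (p : ℤ) ∣ 1 := by
            have := dvd_sub h1 (Dvd.dvd.mul_right h t)
            have e : t ^ 2 + 1 - t * t = 1 := by ring
            rwa [e] at this
          exact hpi.not_isUnit (isUnit_of_dvd_one h3)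
      obtain ⟨u, w, huw⟩ : IsCoprime (2 * t) (p : ℤ) :=
        ((Irreducible.coprime_iff_not_dvd hpi.irreducible).2 h2).symm
      obtain ⟨a', ha'⟩ := hpa
      refine ⟨t + (-k * u) * a, ?_⟩
      push_cast
      refine ⟨k * w + k ^ 2 * u ^ 2 * a', ?_⟩
      have e1 : (t + (-k * u) * a) ^ 2 + 1 = (t ^ 2 + 1) - 2 * t * k * u * a + k ^ 2 * u ^ 2 * a * a := by
        ring
      rw [e1, hk]
      have e2 : (a : ℤ) * k - 2 * t * k * u * a = a * k * (w * p) := by
        have : (1 : ℤ) - u * (2 * t) = w * p := by linarith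
        rw [← this]; ring
      have e3 : k ^ 2 * u ^ 2 * a * a = k ^ 2 * u ^ 2 * a * (p * a') := by rw [← ha']
      rw [e2, e3]; ring
    · obtain ⟨y, hy⟩ := (ZMod.exists_sq_eq_neg_one_iff (p := p)).2 (by omega)
      obtain ⟨s, hs⟩ := ZMod.intCast_surjective y
      have hs1 : (p : ℤ) ∣ s ^ 2 + 1 := by
        rw [← ZMod.intCast_zmod_eq_zero_iff_dvd]
        push_cast
        rw [hs]
        have : y * y = -1 := hy.symm
        linear_combination this
      have hco : IsCoprime (p : ℤ) (a : ℤ) := (Irreducible.coprime_iff_not_dvd hpi.irreducible).2 hpa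
      obtain ⟨u, w, huw⟩ := hco
      refine ⟨t * (u * p) + s * (w * a), ?_⟩
      push_cast
      have hco' : IsCoprime (p : ℤ) (a : ℤ) := ⟨u, w, huw⟩
      refine hco'.mul_dvd ?_ ?_
      · have e : (t * (u * p) + s * (w * a)) ^ 2 + 1
            = (s ^ 2 + 1) + p * (u * (t - s) * (2 * s + p * u * (t - s))) := by
          have : w * (a : ℤ) = 1 - u * p := by linarith
          rw [this]; ring
        rw [e]
        exact dvd_add hs1 (dvd_mul_right _ _)
      · have e : (t * (u * p) + s * (w * a)) ^ 2 + 1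
            = (t ^ 2 + 1) + a * (w * (s - t) * (2 * t + a * w * (s - t))) := by
          have : u * (p : ℤ) = 1 - w * a := by linarith
          rw [this]; ring
        rw [e]
        exact dvd_add ⟨k, hk⟩ (dvd_mul_right _ _)

/-- division of a sum of two squares by a number with prime factors `1 mod 4` only. -/
theorem quot {N : ℕ} (hN : N ≠ 0) (hPr : Pr N) {k u w : ℤ} (h : (N : ℤ) * k = u ^ 2 + w ^ 2) :
    k ∈ Sq2 := by
  have hNpos : (0 : ℤ) < N := by exact_mod_cast Nat.pos_of_ne_zero hN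
  have hk : 0 ≤ k := by
    have : 0 ≤ (N : ℤ) * k := by rw [h]; positivity
    exact nonneg_of_mul_nonneg_right this hNpos
  obtain ⟨m, rfl⟩ := Int.eq_ofNat_of_zero_le hk
  have hnat : N * m = u.natAbs ^ 2 + w.natAbs ^ 2 := by
    zify
    simpa using h
  rcases Nat.eq_zero_or_pos m with rfl | hm
  · exact ⟨0, 0, by simp⟩
  have hev := Nat.eq_sq_add_sq_iff.1 ⟨_, _, hnat⟩
  have : ∃ x y : ℕ, m = x ^ 2 + y ^ 2 := by
    rw [Nat.eq_sq_add_sq_iff]
    intro q hq hq4
    have : Fact q.Prime := ⟨Nat.prime_of_mem_primeFactors hq⟩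
    have hqp : q.Prime := Nat.prime_of_mem_primeFactors hq
    have hqm : q ∣ m := Nat.dvd_of_mem_primeFactors hq
    have h1 : q ∈ (N * m).primeFactors :=
      Nat.mem_primeFactors.2 ⟨hqp, hqm.mul_left N, Nat.mul_ne_zero hN hm.ne'⟩
    have h2 := hev q h1 hq4
    rw [padicValNat.mul hN hm.ne'] at h2
    have h3 : padicValNat q N = 0 := by
      apply padicValNat.eq_zero_of_not_dvd
      intro hd
      have := hPr q hqp hd
      omega
    rwa [h3, zero_add] at h2
  obtain ⟨x, y, hxy⟩ := this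
  exact ⟨x, y, by rw [hxy]; push_cast; rfl⟩

/-- **Core step.**  A number `N` with prime factors `1 mod 4` and integers `S i` with
`S i ^ 2 - S 1 ^ 2 = N (h i - h 1)` give, for every fourth shift `h4`, arbitrarily large `n` with
all four shifts sums of two squares. -/
theorem core {N : ℕ} (hN : N ≠ 0) (hPr : Pr N) {h1 h2 h3 h4 S1 S2 S3 : ℤ}
    (e2 : S2 ^ 2 - S1 ^ 2 = N * (h2 - h1)) (e3 : S3 ^ 2 - S1 ^ 2 = N * (h3 - h1)) (B : ℤ) :
    ∃ n : ℤ, B < n ∧ n + h1 ∈ Sq2 ∧ n + h2 ∈ Sq2 ∧ n + h3 ∈ Sq2 ∧ n + h4 ∈ Sq2 := by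
  obtain ⟨i, hi⟩ := exists_iota N hN hPr
  have hNpos : (1 : ℤ) ≤ N := by exact_mod_cast Nat.pos_of_ne_zero hN
  have hodd : (N : ℤ) % 2 = 1 := by
    have : ¬ 2 ∣ N := fun h => by have := hPr 2 Nat.prime_two h; omega
    omega
  set C : ℤ := S1 ^ 2 + N * (h4 - h1) with hC
  set D : ℤ := N * (|B| + |h1| + 1) with hD
  have hD1 : 1 ≤ D := by
    have := abs_nonneg B
    have := abs_nonneg h1
    nlinarith
  set t0 : ℤ := C - 1 - S1 - i with ht0
  set r : ℤ := D + |C| + 2 + |S1 + i| + |t0| with hr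
  set V : ℤ := S1 + i + N * (t0 + 2 * r) with hV
  have hVlarge : D + |C| + 2 ≤ V := by
    have h1 : 0 ≤ t0 + 2 * r := by
      have := neg_abs_le t0
      have := abs_nonneg (S1 + i)
      have := abs_nonneg C
      have := abs_nonneg t0
      linarith
    have h2 : t0 + 2 * r ≤ N * (t0 + 2 * r) := by nlinarith
    have := neg_abs_le t0
    have := neg_abs_le (S1 + i)
    have := abs_nonneg (S1 + i)
    have := abs_nonneg C
    have := abs_nonneg t0
    linarith
  obtain ⟨X, hX⟩ : ∃ X : ℤ, C - 1 - V ^ 2 = 2 * X := by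
    have h1 : V % 2 = (C - 1) % 2 := by
      obtain ⟨j, hj⟩ : ∃ j : ℤ, (N : ℤ) = 2 * j + 1 := ⟨(N : ℤ) / 2, by omega⟩
      have : V = (C - 1) + 2 * (j * (t0 + 2 * r) + r) := by
        rw [hV, hj, ht0]; ring
      omega
    have h2 : (V ^ 2) % 2 = V % 2 := by
      rcases Int.even_or_odd V with ⟨c, hc⟩ | ⟨c, hc⟩
      · rw [hc, show (c + c) ^ 2 = 2 * (2 * c ^ 2) by ring]; omega
      · rw [hc, show (2 * c + 1) ^ 2 = 2 * (2 * c ^ 2 + 2 * c) + 1 by ring]; omega
    exact ⟨(C - 1 - V ^ 2) / 2, by omega⟩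
  have hdiv : (N : ℤ) ∣ X ^ 2 + S1 ^ 2 := by
    have hc : IsCoprime (N : ℤ) 4 := by
      obtain ⟨j, hj⟩ : ∃ j : ℤ, (N : ℤ) = 2 * j + 1 := ⟨(N : ℤ) / 2, by omega⟩
      have h2 : IsCoprime (N : ℤ) 2 := ⟨1, -j, by rw [hj]; ring⟩
      have : (4 : ℤ) = 2 * 2 := by norm_num
      rw [this]; exact h2.mul_right h2
    have hX2 : (N : ℤ) ∣ 2 * X + 2 * (S1 * i) := by
      obtain ⟨k, hk⟩ := hi
      refine ⟨(h4 - h1) - k - 2 * (S1 + i) * (t0 + 2 * r) - N * (t0 + 2 * r) ^ 2, ?_⟩
      have : 2 * X + 2 * (S1 * i) = C - 1 - V ^ 2 + 2 * (S1 * i) := by rw [hX]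
      rw [this, hV, hC]
      linear_combination -hk
    have h4' : (N : ℤ) ∣ 4 * (X ^ 2 + S1 ^ 2) := by
      have e : 4 * (X ^ 2 + S1 ^ 2)
          = (2 * X + 2 * (S1 * i)) * (2 * X - 2 * (S1 * i)) + 4 * S1 ^ 2 * (i ^ 2 + 1) := by ring
      rw [e]
      exact dvd_add (hX2.mul_right _) (hi.mul_left _)
    exact hc.dvd_of_dvd_mul_left h4'
  obtain ⟨k, hk⟩ := hdiv
  refine ⟨k - h1, ?_, ?_, ?_, ?_, ?_⟩
  · have hXbig : D ≤ -X := by
      have hCabs := le_abs_self C
      have : 2 * (D + |C| + 2) ≤ V ^ 2 := by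
        have hA : 2 ≤ D + |C| + 2 := by
          have := abs_nonneg C
          linarith
        calc 2 * (D + |C| + 2) ≤ V * V :=
              mul_le_mul (hA.trans hVlarge) hVlarge (by linarith) (by linarith)
          _ = V ^ 2 := by ring
      have := abs_nonneg C
      linarith
    have hX2 : D ≤ X ^ 2 := by
      have h0 : 1 ≤ -X := hD1.trans hXbig
      calc D ≤ -X := hXbig
        _ ≤ (-X) * (-X) := le_mul_of_one_le_left (by linarith) h0
        _ = X ^ 2 := by ring
    have hS := sq_nonneg S1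
    have g1 : (N : ℤ) * (|B| + |h1| + 1) ≤ N * k := by rw [← hk]; linarith
    have g2 : |B| + |h1| + 1 ≤ k := by
      by_contra hcon
      push_neg at hcon
      have : (N : ℤ) * k < N * (|B| + |h1| + 1) := by
        apply mul_lt_mul_of_pos_left hcon; linarith
      linarith
    have := le_abs_self B
    have := le_abs_self h1
    linarith
  · have : k - h1 + h1 = k := by ring
    rw [this]
    exact quot hN hPr (u := X) (w := S1) hk.symm
  · refine quot hN hPr (u := X) (w := S2) ?_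
    linear_combination -hk - e2
  · refine quot hN hPr (u := X) (w := S3) ?_
    linear_combination -hk - e3
  · refine quot hN hPr (u := X + 1) (w := V) ?_
    have : C = 2 * X + 1 + V ^ 2 := by linarith
    linear_combination -hk - hC + this

end Pool.Agent.TH353.FS
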