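import Pool.Agent.TH353.FS.Choose

/-!
# Four shifts of sums of two squares: the three 2-adic patterns
-/

namespace Pool.Agent.TH353.FS

/-- The conclusion for four shifts: arbitrarily large `n` with all four shifts in `Sq2`. -/
def Big (h1 h2 h3 h4 : ℤ) : Prop :=
  ∀ B : ℤ, ∃ n : ℤ, B < n ∧ n + h1 ∈ Sq2 ∧ n + h2 ∈ Sq2 ∧ n + h3 ∈ Sq2 ∧ n + h4 ∈ Sq2

/-- three integers do not represent all classes modulo `3`. -/
def NonCov (h1 h2 h3 : ℤ) : Prop :=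
  ∃ c : ℤ, ¬ (3 : ℤ) ∣ h1 - c ∧ ¬ (3 : ℤ) ∣ h2 - c ∧ ¬ (3 : ℤ) ∣ h3 - c

theorem fin {P1 P2 P3 : ℤ} (o1 : P1 % 2 = 1) (o2 : P2 % 2 = 1) (o3 : P3 % 2 = 1)
    (p1 : 0 < P1) (p2 : 0 < P2) (p3 : 0 < P3)
    (hp : ∀ q : ℕ, q.Prime → q % 4 = 3 → ¬ (q : ℤ) ∣ P1 ∧ ¬ (q : ℤ) ∣ P2 ∧ ¬ (q : ℤ) ∣ P3)
    {h1 h2 h3 h4 S1 S2 S3 : ℤ} (e2 : S2 ^ 2 - S1 ^ 2 = P1 * P2 * P3 * (h2 - h1))
    (e3 : S3 ^ 2 - S1 ^ 2 = P1 * P2 * P3 * (h3 - h1)) : Big h1 h2 h3 h4 := by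
  have hpos : 0 < P1 * P2 * P3 := mul_pos (mul_pos p1 p2) p3
  obtain ⟨N, hN⟩ := Int.eq_ofNat_of_zero_le hpos.le
  have hN0 : N ≠ 0 := by
    rintro rfl
    rw [hN] at hpos
    exact absurd hpos (by norm_num)
  have hPr : Pr N := by
    intro q hq hd
    have hpi : Prime (q : ℤ) := Nat.prime_iff_prime_int.1 hq
    have hd' : (q : ℤ) ∣ P1 * P2 * P3 := by rw [hN]; exact_mod_cast hd
    have h2 : q ≠ 2 := by
      rintro rfl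
      rcases hpi.dvd_or_dvd hd' with h | h
      · rcases hpi.dvd_or_dvd h with h | h
        · have := Int.emod_eq_zero_of_dvd h; push_cast at this; omega
        · have := Int.emod_eq_zero_of_dvd h; push_cast at this; omega
      · have := Int.emod_eq_zero_of_dvd h; push_cast at this; omega
    have h3 : q % 4 ≠ 3 := by
      intro h4
      obtain ⟨a1, a2, a3⟩ := hp q hq h4
      rcases hpi.dvd_or_dvd hd' with h | h
      · rcases hpi.dvd_or_dvd h with h | h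
        · exact a1 h
        · exact a2 h
      · exact a3 h
    rcases hq.eq_two_or_odd with h | h
    · exact absurd h h2
    · omega
  intro B
  exact core hN0 hPr (h4 := h4) (by rw [e2, hN]) (by rw [e3, hN]) B

theorem odd_cases (α : ℤ) : ∃ k : ℤ, α = 2 * k ∨ α = 2 * k + 1 :=
  ⟨α / 2, by omega⟩

/-- nonlinear part of the condition at `3`. -/
theorem cov_aux {α δ : ℤ} (hs : (3 : ℤ) ∣ (α - 1) * (α + 1)) (hC : (3 : ℤ) ∣ (α - 1) ^ 2 + δ - 2) :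
    (α % 3 = 1 ∧ δ % 3 = 2) ∨ (α % 3 = 2 ∧ δ % 3 = 1) := by
  obtain ⟨k, hk⟩ : ∃ k : ℤ, α = 3 * k ∨ α = 3 * k + 1 ∨ α = 3 * k + 2 := ⟨α / 3, by omega⟩
  rcases hk with rfl | rfl | rfl
  · exfalso
    have e : (3 * k - 1) * (3 * k + 1) = 3 * (3 * k ^ 2) - 1 := by ring
    rw [e] at hs
    omega
  · left
    have e : (3 * k + 1 - 1) ^ 2 + δ - 2 = 3 * (3 * k ^ 2) + δ - 2 := by ring
    rw [e] at hC
    omega
  · right
    have e : (3 * k + 2 - 1) ^ 2 + δ - 2 = 3 * (3 * k ^ 2 + 2 * k) + 1 + δ - 2 := by ring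
    rw [e] at hC
    omega

/-- **Pattern A**: `h1, h2, h3` congruent modulo `16`, `h2 - h1` not `± 16`. -/
theorem patternA {h1 h2 h3 h4 α β : ℤ} (hα : h2 = h1 + 16 * α) (hβ : h3 = h1 + 16 * β)
    (n1 : α ≠ 1) (n2 : α ≠ -1) (hc : NonCov h1 h2 h3) : Big h1 h2 h3 h4 := by
  have hσ : (α - 1) * (α + 1) ≠ 0 :=
    mul_ne_zero (sub_ne_zero.2 n1) (fun h => n2 (by linarith))
  have h3' : ¬ ((3 : ℤ) ∣ (α - 1) * (α + 1) ∧ (3 : ℤ) ∣ ((α - 1) ^ 2 + 4 * β) - 2) := by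
    rintro ⟨a, b⟩
    obtain ⟨c, c1, c2, c3⟩ := hc
    rcases cov_aux a b with h | h <;> omega
  obtain ⟨k, hk⟩ := odd_cases α
  have hC1 : ((α - 1) ^ 2 + 4 * β) + 1 ≠ 0 := by
    intro h
    rcases hk with rfl | rfl
    · have e : (2 * k - 1) ^ 2 + 4 * β + 1 = 4 * (k ^ 2 - k + β) + 2 := by ring
      omega
    · have e : (2 * k + 1 - 1) ^ 2 + 4 * β + 1 = 4 * (k ^ 2 + β) + 1 := by ring
      omega
  rcases hk with rfl | rfl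
  · obtain ⟨v, ⟨w, hw⟩, hv⟩ := choose hσ hC1 h3' 0
    have hvw : v = 4 * w := by push_cast at hw; linarith
    subst hvw
    set X : ℤ := 2 * (k ^ 2 - k + β) - 8 * w ^ 2 with hX
    have hP := hv 1 X (by rw [hX]; ring)
    have o1 : (X ^ 2 + (2 * k - 1) ^ 2) % 2 = 1 := by
      have e : X ^ 2 + (2 * k - 1) ^ 2
          = 2 * (2 * ((k ^ 2 - k + β) - 4 * w ^ 2) ^ 2 + 2 * k ^ 2 - 2 * k) + 1 := by rw [hX]; ring
      omega
    have o2 : (X ^ 2 + (2 * k + 1) ^ 2) % 2 = 1 := by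
      have e : X ^ 2 + (2 * k + 1) ^ 2
          = 2 * (2 * ((k ^ 2 - k + β) - 4 * w ^ 2) ^ 2 + 2 * k ^ 2 + 2 * k) + 1 := by rw [hX]; ring
      omega
    have o3 : ((1 * X + 1) ^ 2 + (4 * w) ^ 2) % 2 = 1 := by
      have e : (1 * X + 1) ^ 2 + (4 * w) ^ 2
          = 2 * (2 * ((k ^ 2 - k + β) - 4 * w ^ 2) ^ 2 + X + 8 * w ^ 2) + 1 := by rw [hX]; ring
      omega
    have q1 : 0 < X ^ 2 + (2 * k - 1) ^ 2 := by
      have : 0 ≤ X ^ 2 + (2 * k - 1) ^ 2 := by positivity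
      omega
    have q2 : 0 < X ^ 2 + (2 * k + 1) ^ 2 := by
      have : 0 ≤ X ^ 2 + (2 * k + 1) ^ 2 := by positivity
      omega
    have q3 : 0 < (1 * X + 1) ^ 2 + (4 * w) ^ 2 := by
      have : 0 ≤ (1 * X + 1) ^ 2 + (4 * w) ^ 2 := by positivity
      omega
    have d2 : h2 - h1 = 4 * ((X ^ 2 + (2 * k + 1) ^ 2) - (X ^ 2 + (2 * k - 1) ^ 2)) := by
      rw [hα]; ring
    have d3 : h3 - h1 = 4 * (((1 * X + 1) ^ 2 + (4 * w) ^ 2) - (X ^ 2 + (2 * k - 1) ^ 2)) := by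
      rw [hβ, hX]; ring
    generalize X ^ 2 + (2 * k - 1) ^ 2 = P1 at *
    generalize X ^ 2 + (2 * k + 1) ^ 2 = P2 at *
    generalize (1 * X + 1) ^ 2 + (4 * w) ^ 2 = P3 at *
    exact fin o1 o2 o3 q1 q2 q3 hP
      (S1 := P1 * P2 + P1 * P3 - P2 * P3) (S2 := P1 * P2 + P2 * P3 - P1 * P3)
      (S3 := P1 * P3 + P2 * P3 - P1 * P2) (by rw [d2]; ring) (by rw [d3]; ring)
  · obtain ⟨v, ⟨w, hw⟩, hv⟩ := choose hσ hC1 h3' 1
    have hvw : v = 4 * w + 1 := by push_cast at hw; linarith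
    subst hvw
    set X : ℤ := 2 * (k ^ 2 + β - 4 * w ^ 2 - 2 * w) - 1 with hX
    have hP := hv 1 X (by rw [hX]; ring)
    have o1 : (X ^ 2 + (2 * k + 1 - 1) ^ 2) % 2 = 1 := by
      have e : X ^ 2 + (2 * k + 1 - 1) ^ 2
          = 2 * (2 * (k ^ 2 + β - 4 * w ^ 2 - 2 * w) ^ 2 - 2 * (k ^ 2 + β - 4 * w ^ 2 - 2 * w)
            + 2 * k ^ 2) + 1 := by rw [hX]; ring
      omega
    have o2 : (X ^ 2 + (2 * k + 1 + 1) ^ 2) % 2 = 1 := by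
      have e : X ^ 2 + (2 * k + 1 + 1) ^ 2
          = 2 * (2 * (k ^ 2 + β - 4 * w ^ 2 - 2 * w) ^ 2 - 2 * (k ^ 2 + β - 4 * w ^ 2 - 2 * w)
            + 2 * (k + 1) ^ 2) + 1 := by rw [hX]; ring
      omega
    have o3 : ((1 * X + 1) ^ 2 + (4 * w + 1) ^ 2) % 2 = 1 := by
      have e : (1 * X + 1) ^ 2 + (4 * w + 1) ^ 2
          = 2 * (2 * (k ^ 2 + β - 4 * w ^ 2 - 2 * w) ^ 2 + 8 * w ^ 2 + 4 * w) + 1 := by
        rw [hX]; ring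
      omega
    have q1 : 0 < X ^ 2 + (2 * k + 1 - 1) ^ 2 := by
      have : 0 ≤ X ^ 2 + (2 * k + 1 - 1) ^ 2 := by positivity
      omega
    have q2 : 0 < X ^ 2 + (2 * k + 1 + 1) ^ 2 := by
      have : 0 ≤ X ^ 2 + (2 * k + 1 + 1) ^ 2 := by positivity
      omega
    have q3 : 0 < (1 * X + 1) ^ 2 + (4 * w + 1) ^ 2 := by
      have : 0 ≤ (1 * X + 1) ^ 2 + (4 * w + 1) ^ 2 := by positivity
      omega
    have d2 : h2 - h1 = 4 * ((X ^ 2 + (2 * k + 1 + 1) ^ 2) - (X ^ 2 + (2 * k + 1 - 1) ^ 2)) := by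
      rw [hα]; ring
    have d3 : h3 - h1
        = 4 * (((1 * X + 1) ^ 2 + (4 * w + 1) ^ 2) - (X ^ 2 + (2 * k + 1 - 1) ^ 2)) := by
      rw [hβ, hX]; ring
    generalize X ^ 2 + (2 * k + 1 - 1) ^ 2 = P1 at *
    generalize X ^ 2 + (2 * k + 1 + 1) ^ 2 = P2 at *
    generalize (1 * X + 1) ^ 2 + (4 * w + 1) ^ 2 = P3 at *
    exact fin o1 o2 o3 q1 q2 q3 hP
      (S1 := P1 * P2 + P1 * P3 - P2 * P3) (S2 := P1 * P2 + P2 * P3 - P1 * P3)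
      (S3 := P1 * P3 + P2 * P3 - P1 * P2) (by rw [d2]; ring) (by rw [d3]; ring)

/-- **Pattern A** without the restriction on `h2 - h1`. -/
theorem patternA' {h1 h2 h3 h4 : ℤ} (hα : (16 : ℤ) ∣ h2 - h1) (hβ : (16 : ℤ) ∣ h3 - h1)
    (hc : NonCov h1 h2 h3) : Big h1 h2 h3 h4 := by
  obtain ⟨α, hα⟩ := hα
  obtain ⟨β, hβ⟩ := hβ
  obtain ⟨c, c1, c2, c3⟩ := hc
  by_cases ha : α ≠ 1 ∧ α ≠ -1
  · exact patternA (α := α) (β := β) (by linarith) (by linarith) ha.1 ha.2 ⟨c, c1, c2, c3⟩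
  by_cases hb : β ≠ 1 ∧ β ≠ -1
  · intro B
    obtain ⟨n, a0, a1, a2, a3, a4⟩ := patternA (h1 := h1) (h2 := h3) (h3 := h2) (h4 := h4)
      (α := β) (β := α) (by linarith) (by linarith) hb.1 hb.2 ⟨c, c1, c3, c2⟩ B
    exact ⟨n, a0, a1, a3, a2, a4⟩
  · intro B
    obtain ⟨n, a0, a1, a2, a3, a4⟩ := patternA (h1 := h2) (h2 := h3) (h3 := h1) (h4 := h4)
      (α := β - α) (β := -α) (by linarith) (by linarith) (by omega) (by omega) ⟨c, c2, c3, c1⟩ B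
    exact ⟨n, a0, a3, a1, a2, a4⟩

end Pool.Agent.TH353.FS
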